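import Pool.Agent.H928.DS.Conv

/-!
# Affine collections for division sudokus: a lower bound for every rank
-/

set_option autoImplicit false

namespace Pool.Agent.Results.MP_72f993_co.ProductBound

open Pool.Agent.H928.DS

/-- For `m ≥ 2` and `1 ≤ k ≤ 1 + q` for every prime power `q` which exactly divides `m` there is a division
sudoku of rank `m` with an affine collection of exactly `k` sudoku partitions. -/
theorem result (m k : ℕ) (hm : 2 ≤ m) (hk : 1 ≤ k)
    (h : ∀ p : ℕ, p.Prime → p ∣ m → k ≤ p ^ m.factorization p + 1) : k ∈ Sizes m :=
  mem_sizes hm hk (lab_of_factorization k m (by omega) h)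

end Pool.Agent.Results.MP_72f993_co.ProductBound
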