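import Pool.Agent.H928.DS.Conv

/-!
# Affine collections for division sudokus of rank six
-/

set_option autoImplicit false

namespace Pool.Agent.Results.MP_72f993_co.RankSix

open Pool.Agent.H928.DS

/-- The greatest size of an affine collection for a division sudoku of rank `6` is `3`, the greatest number of
mutually orthogonal latin squares of order `6` is `1`. -/
theorem result : IsGreatest (Sizes 6) 3 ∧ IsGreatest (MolsSizes 6) 1 := by
  refine ⟨⟨?_, fun k hk => sizes_six hk⟩, mols_six⟩
  refine mem_sizes (by norm_num) (by norm_num) (lab_of_factorization 3 6 (by norm_num) ?_)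
  intro p hp hpd
  have h1 : 1 ≤ (6 : ℕ).factorization p := (hp.dvd_iff_one_le_factorization (by norm_num)).1 hpd
  have h2 : p ^ 1 ≤ p ^ (6 : ℕ).factorization p := Nat.pow_le_pow_right hp.pos h1
  have h3 := hp.two_le
  rw [pow_one] at h2
  omega

end Pool.Agent.Results.MP_72f993_co.RankSix
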